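import Mathlib

/-!
MP_689b4c_al (conjugacy problem in abelian-by-polycyclic groups): shared definitions.
-/

set_option autoImplicit false

namespace Pool.Agent.AP

/-- finite unions of projections of sets of integer solutions of systems of linear equations -/
def LinSet {M : Type} [AddCommGroup M] (P : M → Prop) : Prop :=
  ∃ (T : Type) (_ : Fintype T) (E : Type) (_ : AddCommGroup E) (_ : Module.Finite ℤ E)
    (V : Type) (_ : AddCommGroup V) (_ : Module.Finite ℤ V) (_ : Module.Free ℤ V)
    (L : T → M × E →+ V) (κ : T → V), ∀ a, P a ↔ ∃ τ e, L τ (a, e) = κ τ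

/-- affine maps -/
def Aff {M N : Type} [AddCommGroup M] [AddCommGroup N] (f : M → N) : Prop :=
  ∃ (φ : M →+ N) (c : N), ∀ x, f x = φ x + c

/-- `F : X → Y → Prop` is computed by a deterministic transition system with linear steps:
`S` is the set of states, coded by `enc` in the free abelian group `M`, `R` the relation of
transition, `i` and `o` the initial and final states -/
def IsSys {X Y : Type} [AddCommGroup X] [AddCommGroup Y] (F : X → Y → Prop) : Prop :=
  ∃ (S M : Type) (_ : AddCommGroup M) (_ : Module.Finite ℤ M) (_ : Module.Free ℤ M)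
    (enc : S → M) (R : S → S → Prop) (i : X → S) (o : Y → S),
    Function.Injective enc ∧ Function.Injective o ∧ Aff (fun x => enc (i x)) ∧
    Aff (fun y => enc (o y)) ∧
    LinSet (fun p : M × M => ∃ a b, R a b ∧ (enc a, enc b) = p) ∧
    (∀ a b b', R a b → R a b' → b = b') ∧ (∀ y b, ¬ R (o y) b) ∧
    ∀ x y, Relation.ReflTransGen R (i x) (o y) ↔ F x y

/-- coding of lists of natural numbers by integers (digits 1 and 2 in base 3) -/
def code : List ℕ → ℤ
  | [] => 0
  | n :: v => (fun x : ℤ => 3 * x + 1)^[n] (3 * code v + 2)

end Pool.Agent.AP
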